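import Pool.Agent.R745.SJ.Main

/-!
# MP_9d843c_co: `χ(J_±(n,4,0)) / n` is unbounded
-/

set_option autoImplicit false

namespace Pool.Agent.Results.MP_9d843c_co.SuperlinearChromatic

/-- The vertex set of `J_±(n,k,t)`: vectors with entries in `{-1, 0, 1}` and exactly `k`
non-zero coordinates. -/
def Vert (n k : ℕ) : Type :=
  {v : Fin n → ℤ // (∀ i, v i = -1 ∨ v i = 0 ∨ v i = 1) ∧
    (Finset.univ.filter (fun i => v i ≠ 0)).card = k}

/-- The graph `J_±(n,k,t)`: two distinct vertices are adjacent iff their scalar product is `t`. -/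
def J (n k : ℕ) (t : ℤ) : SimpleGraph (Vert n k) where
  Adj u v := u ≠ v ∧ ∑ i, u.1 i * v.1 i = t
  symm := by
    constructor
    rintro u v ⟨h1, h2⟩
    refine ⟨h1.symm, ?_⟩
    rw [← h2]
    exact Finset.sum_congr rfl fun i _ => mul_comm _ _
  loopless := ⟨fun v h => h.1 rfl⟩

theorem result :
    ∀ C : ℕ, ∃ n₀ : ℕ, ∀ n, n₀ ≤ n → ((C * n : ℕ) : ℕ∞) < (J n 4 0).chromaticNumber := by
  intro C
  obtain ⟨n₀, hn₀⟩ := R745.SJ.classes_bound C
  refine ⟨n₀, fun n hn => ?_⟩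
  by_contra hcon
  rw [not_lt] at hcon
  have hcol : (J n 4 0).Colorable (C * n) :=
    SimpleGraph.chromaticNumber_le_iff_colorable.1 hcon
  obtain ⟨c⟩ := hcol
  refine hn₀ n hn ⟨fun κ v => ∃ h : R745.SJ.IsVec n 4 v, c ⟨v, h⟩ = κ, fun κ v h => h.1, ?_, ?_⟩
  · rintro κ u v ⟨hu, hcu⟩ ⟨hv, hcv⟩ huv h0
    have hadj : (J n 4 0).Adj ⟨u, hu⟩ ⟨v, hv⟩ :=
      ⟨fun h => huv (congrArg Subtype.val h), h0⟩
    exact c.valid hadj (hcu.trans hcv.symm)
  · intro v hv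
    exact ⟨c ⟨v, hv⟩, hv, rfl⟩

end Pool.Agent.Results.MP_9d843c_co.SuperlinearChromatic
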